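import Pool.Agent.Bht.EQ66.Sig
import Pool.Agent.Bht.BK.R1

/-! general bridge, products of labelled trees, start of the induction -/

namespace Pool.Agent.Bht.BK.EQ66

open Pool.Agent.H25

variable {K : Type*} [Field K] {α β : Type}

noncomputable def eW (K : Type*) [Field K] (f : α → ℕ) (w : List α) : TT K :=
  wd (FreeMonoid.ofList (w.map (fun i => (f i, 0))))

lemma eW_app (f : α → ℕ) (p q : List α) : eW K f (p ++ q) = eW K f p * eW K f q := by
  unfold eW
  rw [List.map_append, FreeMonoid.ofList_append, wd_mul]

noncomputable def eM (K : Type*) [Field K] (f : α → ℕ) : LT α → TT K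
  | LT.leaf x => wd (FreeMonoid.of (f x, 0))
  | LT.node a b => eM K f a * eM K f b - eM K f b * eM K f a

lemma e_val (f : α → ℕ) : ∀ (S : LT α) (l : TT K →ₗ[K] K),
    S.val (fun w => l (eW K f w)) = l (eM K f S)
  | LT.leaf _, _ => rfl
  | LT.node a b, l => by
    have h1 : a.val (fun p => b.val (fun q => l (eW K f (p ++ q)))) = l (eM K f a * eM K f b) := by
      have h : ∀ p, b.val (fun q => l (eW K f (p ++ q))) =
          (l ∘ₗ LinearMap.mulRight K (eM K f b)) (eW K f p) := by
        intro p
        have := e_val f b (l ∘ₗ LinearMap.mulLeft K (eW K f p))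
        simp only [LinearMap.comp_apply, LinearMap.mulLeft_apply] at this
        simp only [eW_app]
        rw [this]
        rfl
      simp only [h]
      rw [e_val f a]
      rfl
    have h2 : b.val (fun q => a.val (fun p => l (eW K f (q ++ p)))) = l (eM K f b * eM K f a) := by
      have h : ∀ p, a.val (fun q => l (eW K f (p ++ q))) =
          (l ∘ₗ LinearMap.mulRight K (eM K f a)) (eW K f p) := by
        intro p
        have := e_val f a (l ∘ₗ LinearMap.mulLeft K (eW K f p))
        simp only [LinearMap.comp_apply, LinearMap.mulLeft_apply] at this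
        simp only [eW_app]
        rw [this]
        rfl
      simp only [h]
      rw [e_val f b]
      rfl
    rw [LT.val, h1, h2, eM, map_sub]

lemma e_mem (f : α → ℕ) : ∀ S : LT α, eM K f S ∈ X0 K S.shape
  | LT.leaf x => by
    rw [eM, LT.shape, X0]
    exact letter_mem_V1 _ _
  | LT.node a b => by
    rw [eM, LT.shape, X0]
    exact mem_br (e_mem f a) (e_mem f b)

def eL : BT → ℕ → LT ℕ
  | BT.leaf, c => LT.leaf c
  | BT.node a b, c => LT.node (eL a c) (eL b (c + a.lv))

lemma eL_shape : ∀ (s : BT) (c : ℕ), (eL s c).shape = s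
  | BT.leaf, _ => rfl
  | BT.node a b, c => by rw [eL, LT.shape, eL_shape a, eL_shape b]

lemma eL_M (f : ℕ → ℕ) : ∀ (s : BT) (c : ℕ), eM K f (eL s c) = monoT K f s c
  | BT.leaf, _ => rfl
  | BT.node a b, c => by rw [eL, eM, monoT, eL_M f a, eL_M f b]

lemma eL_map_congr {f g : ℕ → α} : ∀ (s : BT) (c : ℕ), (∀ n, c ≤ n → n < c + s.lv → f n = g n) →
    (eL s c).map f = (eL s c).map g
  | BT.leaf, c => fun h => by rw [eL, LT.map, LT.map, h c le_rfl (by rw [BT.lv]; omega)]
  | BT.node a b, c => fun h => by
    rw [BT.lv] at h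
    rw [eL, LT.map, LT.map, eL_map_congr a c (fun n h1 h2 => h n h1 (by omega)),
      eL_map_congr b (c + a.lv) (fun n h1 h2 => h n (by omega) (by omega))]

lemma exists_lab : ∀ (L : LT α) (c : ℕ), ∃ g : ℕ → α, (eL L.shape c).map g = L
  | LT.leaf x, c => ⟨fun _ => x, rfl⟩
  | LT.node a b, c => by
    obtain ⟨g1, h1⟩ := exists_lab a c
    obtain ⟨g2, h2⟩ := exists_lab b (c + a.shape.lv)
    refine ⟨fun n => if n < c + a.shape.lv then g1 n else g2 n, ?_⟩
    rw [LT.shape, eL, LT.map, eL_map_congr (g := g1) a.shape c (fun n _ h => if_pos h),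
      eL_map_congr (g := g2) b.shape _ (fun n h _ => if_neg (by omega)), h1, h2]

noncomputable def flg (φ : List α → K) (g : ℕ → α) : TT K →ₗ[K] K :=
  lin (fun w : Wd => φ (w.toList.map (fun a => g a.1)))

lemma flg_W (φ : List α → K) (g : ℕ → α) (f : β → ℕ) (w : List β) :
    flg φ g (eW K f w) = φ (w.map (fun i => g (f i))) := by
  unfold flg eW
  rw [lin_wd, FreeMonoid.toList_ofList, List.map_map]
  rfl

lemma flg_M (φ : List α → K) (g : ℕ → α) (f : β → ℕ) (S : LT β) :
    flg φ g (eM K f S) = (S.map (fun i => g (f i))).val φ := by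
  rw [← e_val, val_map]
  simp only [flg_W]

/-- general bridge, for a family of trees: inclusion in a sum of two -/
theorem bridge2 {s t t' : BT} (h : X0 K s ≤ X0 K t ⊔ X0 K t') (φ : List α → K) (L : LT α)
    (hs : L.shape = s) (hne : L.val φ ≠ 0) :
    (∃ M : LT α, M.shape = t ∧ M.val φ ≠ 0) ∨ (∃ M : LT α, M.shape = t' ∧ M.val φ ≠ 0) := by
  obtain ⟨g, hg⟩ := exists_lab L 0
  by_contra hc
  push Not at hc
  apply hne
  rw [← hg]
  have e : (eL L.shape 0).map g = (eL L.shape 0).map (fun i => g (id i)) := rfl
  rw [e, ← flg_M φ g id]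
  have h2 : eM K id (eL L.shape 0) ∈ X0 K t ⊔ X0 K t' := by
    have := e_mem (K := K) id (eL L.shape 0)
    rw [eL_shape, hs] at this
    rw [hs]
    exact h this
  have key : ∀ t : BT, (∀ M : LT α, M.shape = t → M.val φ = 0) → X0 K t ≤ LinearMap.ker (flg φ g) := by
    intro t ht
    refine (X0_le_span t 0).trans ?_
    rw [Submodule.span_le]
    rintro _ ⟨f, rfl⟩
    change flg φ g (monoT K f t 0) = 0
    rw [← eL_M, flg_M]
    exact ht _ (by rw [shape_map, eL_shape])
  exact LinearMap.mem_ker.1 ((sup_le (key t hc.1) (key t' hc.2)) h2)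

theorem bridge1 {s t : BT} (h : X0 K s ≤ X0 K t) (φ : List α → K) (L : LT α)
    (hs : L.shape = s) (hne : L.val φ ≠ 0) : ∃ M : LT α, M.shape = t ∧ M.val φ ≠ 0 := by
  rcases bridge2 (h.trans (le_sup_left (b := X0 K t))) φ L hs hne with h | h <;> exact h

/-! products -/

lemma cval_zero (Hs : List (LT α)) : cval Hs (fun _ => (0 : K)) = 0 := by
  induction Hs with
  | nil => rfl
  | cons H Hs ih => rw [cval]; simp only [ih, val_zero]

lemma cval_mul_left (Hs : List (LT α)) (c : K) (φ : List α → K) :
    cval Hs (fun w => c * φ w) = c * cval Hs φ := by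
  induction Hs generalizing φ with
  | nil => rfl
  | cons H Hs ih => rw [cval, cval]; simp only [ih, val_mul_left]

lemma cval_mul_right (Hs : List (LT α)) (c : K) (φ : List α → K) :
    cval Hs (fun w => φ w * c) = cval Hs φ * c := by
  simp only [mul_comm _ c]
  exact cval_mul_left Hs c φ

lemma cval_append (Hs Gs : List (LT α)) (φ : List α → K) :
    cval (Hs ++ Gs) φ = cval Hs (fun p => cval Gs (fun q => φ (p ++ q))) := by
  induction Hs generalizing φ with
  | nil => rfl
  | cons H Hs ih =>
    rw [List.cons_append, cval, cval]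
    simp only [ih, List.append_assoc]

lemma cval_val (Hs : List (LT α)) (L : LT β) (φ : List α → List β → K) :
    cval Hs (fun p => L.val (fun q => φ p q)) = L.val (fun q => cval Hs (fun p => φ p q)) := by
  induction Hs generalizing φ with
  | nil => rfl
  | cons H Hs ih =>
    rw [cval]
    simp only [ih]
    rw [val_val]
    rfl

lemma cval_cval (Hs : List (LT α)) (Gs : List (LT β)) (φ : List α → List β → K) :
    cval Hs (fun p => cval Gs (fun q => φ p q)) = cval Gs (fun q => cval Hs (fun p => φ p q)) := by
  induction Gs generalizing φ with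
  | nil => rfl
  | cons G Gs ih =>
    simp only [cval]
    rw [cval_val]
    simp only [ih]

/-- zero because of a factor -/
lemma cval_zero_of_mem {H : LT α} {Hs : List (LT α)} (hm : H ∈ Hs) {φ : List α → K}
    (h : ∀ u v, H.val (fun w => φ (u ++ w ++ v)) = 0) : cval Hs φ = 0 := by
  induction Hs generalizing φ with
  | nil => simp at hm
  | cons G Gs ih =>
    rw [cval]
    rcases List.mem_cons.1 hm with rfl | hm
    · rw [← cval_val (β := α) Gs H (fun q p => φ (p ++ q))]
      have : ∀ q, H.val (fun p => φ (p ++ q)) = 0 := fun q => by simpa using h [] q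
      simp only [this, cval_zero]
    · have : ∀ p, cval Gs (fun q => φ (p ++ q)) = 0 := fun p =>
        ih hm (fun u v => by simpa only [List.append_assoc] using h (p ++ u) v)
      simp only [this, val_zero]

/-! start -/

open Classical in
/-- words beginning with `none` and without other `none` -/
noncomputable def zz (φ : List α → K) (w : List (Option α)) : K :=
  match w with
  | [] => 0
  | none :: w' => if ∀ x ∈ w', x ≠ none then φ (w'.filterMap id) else 0
  | some _ :: _ => 0

open Classical in
lemma zz_none (φ : List α → K) (w : List (Option α)) :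
    zz φ (none :: w) = if ∀ x ∈ w, x ≠ none then φ (w.filterMap id) else 0 := rfl

lemma zz_some (φ : List α → K) (y : α) (w : List (Option α)) : zz φ (some y :: w) = 0 := rfl

lemma zz_shift (b' : LT α) (φ : List α → K) (p : List (Option α)) (hp : p ≠ []) :
    (b'.map some).val (fun q => zz φ (p ++ q)) = zz (fun p' => b'.val (fun q' => φ (p' ++ q'))) p := by
  rw [val_map]
  match p, hp with
  | some y :: p', _ =>
    have : ∀ q : List α, zz φ (some y :: p' ++ q.map some) = 0 := fun q => rfl
    simp only [this, val_zero]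
    rfl
  | none :: p', _ =>
    by_cases hc : ∀ x ∈ p', x ≠ none
    · have : ∀ q : List α, zz φ (none :: p' ++ q.map some) = φ (p'.filterMap id ++ q) := by
        intro q
        have h1 : ∀ x ∈ p' ++ q.map some, x ≠ none := by
          intro x hx
          rcases List.mem_append.1 hx with hx | hx
          · exact hc x hx
          · obtain ⟨y, _, rfl⟩ := List.mem_map.1 hx
            simp
        rw [List.cons_append, zz_none, if_pos h1, List.filterMap_append]
        congr 2
        simp
      simp only [this]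
      rw [zz_none, if_pos hc]
    · have : ∀ q : List α, zz φ (none :: p' ++ q.map some) = 0 := by
        intro q
        rw [List.cons_append, zz_none, if_neg]
        intro h
        exact hc (fun x hx => h x (List.mem_append_left _ hx))
      simp only [this, val_zero]
      rw [zz_none, if_neg hc]

lemma val_some (L : LT (Option α)) (h : ∀ x ∈ L.leaves, x ≠ none) : ∃ L' : LT α, L = L'.map some := by
  induction L with
  | leaf x =>
    cases x with
    | none => exact absurd rfl (h none (by simp [LT.leaves]))
    | some x => exact ⟨LT.leaf x, rfl⟩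
  | node a b iha ihb =>
    obtain ⟨a', rfl⟩ := iha (fun x hx => h x (by rw [LT.leaves]; exact List.mem_append_left _ hx))
    obtain ⟨b', rfl⟩ := ihb (fun x hx => h x (by rw [LT.leaves]; exact List.mem_append_right _ hx))
    exact ⟨LT.node a' b', rfl⟩

lemma leaves_ne_nil (L : LT α) : L.leaves ≠ [] := by
  intro h
  have := length_leaves L
  rw [h] at this
  have := L.shape.lv_pos
  simp at *
  omega

/-- extraction of a chain -/
lemma chain_of_zz (L : LT (Option α)) (φ : List α → K) (h : L.val (zz φ) ≠ 0) :
    ∃ c ∈ chains L.shape, Ev c φ := by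
  have key : ∀ (a b : LT (Option α)),
      (∀ (φ : List α → K), a.val (zz φ) ≠ 0 → ∃ c ∈ chains a.shape, Ev c φ) →
      ∀ (φ : List α → K), a.val (fun p => b.val (fun q => zz φ (p ++ q))) ≠ 0 →
      ∃ c ∈ chains a.shape, Ev (c ++ [b.shape]) φ := by
    intro a b iha φ h
    obtain ⟨p, hp, h1⟩ := exists_perm_of_val_ne a h
    obtain ⟨q, hq, h2⟩ := exists_perm_of_val_ne b h1
    have hpne : p ≠ [] := by
      intro e
      rw [e] at hp
      exact leaves_ne_nil a (List.nil_perm.1 hp)
    have hq' : ∀ x ∈ b.leaves, x ≠ none := by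
      intro x hx
      match p, hpne, h2 with
      | none :: p', _, h2 =>
        rw [List.cons_append, zz_none] at h2
        by_cases hc : ∀ x ∈ p' ++ q, x ≠ none
        · exact hc x (List.mem_append_right _ (hq.mem_iff.2 hx))
        · rw [if_neg hc] at h2
          exact absurd rfl h2
      | some y :: p', _, h2 => exact absurd rfl h2
    obtain ⟨b', rfl⟩ := val_some b hq'
    have e : ∀ p, p.Perm a.leaves → (b'.map some).val (fun q => zz φ (p ++ q)) =
        zz (fun p' => b'.val (fun q' => φ (p' ++ q'))) p := by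
      intro p hp
      refine zz_shift b' φ p ?_
      rintro rfl
      exact leaves_ne_nil a (List.nil_perm.1 hp)
    rw [val_congr a e] at h
    obtain ⟨c, hc, Hs, hHs, hv⟩ := iha _ h
    refine ⟨c, hc, Hs ++ [b'], ?_, ?_⟩
    · rw [List.map_append, hHs, List.map_singleton, shape_map]
    · rw [cval_append]
      simpa only [cval, List.append_nil] using hv
  induction L generalizing φ with
  | leaf x =>
    cases x with
    | none => exact ⟨[], by simp [LT.shape, chains], [], rfl, by simpa [LT.val, zz, cval] using h⟩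
    | some x => exact absurd rfl h
  | node a b iha ihb =>
    rw [LT.val] at h
    have : a.val (fun p => b.val (fun q => zz φ (p ++ q))) ≠ 0 ∨
        b.val (fun p => a.val (fun q => zz φ (p ++ q))) ≠ 0 := by
      by_contra hc
      push Not at hc
      rw [hc.1, hc.2, sub_zero] at h
      exact h rfl
    rcases this with h | h
    · obtain ⟨c, hc, h'⟩ := key a b iha φ h
      exact ⟨c ++ [b.shape], by rw [LT.shape, chains]; exact List.mem_append_left _ (List.mem_map.2 ⟨c, hc, rfl⟩), h'⟩
    · obtain ⟨c, hc, h'⟩ := key b a ihb φ h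
      exact ⟨c ++ [a.shape], by rw [LT.shape, chains]; exact List.mem_append_right _ (List.mem_map.2 ⟨c, hc, rfl⟩), h'⟩

/-- a chain gives a tree -/
lemma zz_of_chain : ∀ (s : BT) (c : List BT), c ∈ chains s → ∀ (φ : List α → K), Ev c φ →
    ∃ L : LT (Option α), L.shape = s ∧ L.val (zz φ) ≠ 0
  | BT.leaf, c => by
    intro hc φ h
    rw [chains, List.mem_singleton] at hc
    subst hc
    obtain ⟨Hs, hH, hv⟩ := h
    rw [List.map_eq_nil_iff] at hH
    subst hH
    refine ⟨LT.leaf none, rfl, ?_⟩
    rw [LT.val]
    simpa [zz, cval] using hv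
  | BT.node a b, c => by
    have key : ∀ (s t : BT), (∀ (c : List BT), c ∈ chains s → ∀ (φ : List α → K), Ev c φ →
        ∃ L : LT (Option α), L.shape = s ∧ L.val (zz φ) ≠ 0) → ∀ c ∈ chains s, ∀ φ : List α → K,
        Ev (c ++ [t]) φ → ∃ (L : LT (Option α)) (M : LT α), L.shape = s ∧ M.shape = t ∧
          L.val (fun p => (M.map some).val (fun q => zz φ (p ++ q))) ≠ 0 ∧
          (M.map some).val (fun q => L.val (fun p => zz φ (q ++ p))) = 0 := by
      intro s t ih c hc φ h
      obtain ⟨Hs, hH, hv⟩ := h
      obtain ⟨Hs', Ms, rfl, hHs', hMs⟩ := List.map_eq_append_iff.1 hH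
      obtain ⟨M, rfl, hM⟩ := List.map_eq_singleton_iff.1 hMs
      rw [cval_append] at hv
      simp only [cval, List.append_nil] at hv
      obtain ⟨L, hL, hv'⟩ := ih c hc (fun p => M.val (fun q => φ (p ++ q))) ⟨Hs', hHs', hv⟩
      refine ⟨L, M, hL, hM, ?_, ?_⟩
      · have e : ∀ p, p.Perm L.leaves → (M.map some).val (fun q => zz φ (p ++ q)) =
            zz (fun p' => M.val (fun q' => φ (p' ++ q'))) p := by
          intro p hp
          refine zz_shift M φ p ?_
          rintro rfl
          exact leaves_ne_nil L (List.nil_perm.1 hp)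
        rw [val_congr L e]
        exact hv'
      · rw [val_map]
        have : ∀ w : List α, w.Perm M.leaves → L.val (fun p => zz φ (w.map some ++ p)) = 0 := by
          intro w hw
          match w, hw with
          | [], hw => exact absurd (List.nil_perm.1 hw) (leaves_ne_nil M)
          | y :: w', _ => exact val_zero L
        rw [val_congr M (χ := fun _ => 0) this, val_zero]
    intro hc φ h
    rw [chains] at hc
    rcases List.mem_append.1 hc with hc | hc
    · obtain ⟨c', hc', rfl⟩ := List.mem_map.1 hc
      obtain ⟨L, M, hL, hM, h1, h2⟩ := key a b (zz_of_chain a) c' hc' φ h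
      refine ⟨LT.node L (M.map some), by rw [LT.shape, hL, shape_map, hM], ?_⟩
      rw [LT.val, h2, sub_zero]
      exact h1
    · obtain ⟨c', hc', rfl⟩ := List.mem_map.1 hc
      obtain ⟨L, M, hL, hM, h1, h2⟩ := key b a (zz_of_chain b) c' hc' φ h
      refine ⟨LT.node (M.map some) L, by rw [LT.shape, hL, shape_map, hM], ?_⟩
      rw [LT.val, h2, zero_sub, neg_ne_zero]
      exact h1

lemma EvX_nil (X : BT) (φ : List α → K) : EvX X [] φ ↔ ∃ c ∈ chains X, Ev c φ := by
  unfold EvX
  simp only [List.append_nil]

/-- the start -/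
theorem EvX_mono {s t : BT} (h : X0 K s ≤ X0 K t) (φ : List α → K) (hs : EvX s [] φ) : EvX t [] φ := by
  rw [EvX_nil] at hs ⊢
  obtain ⟨c, hc, hv⟩ := hs
  obtain ⟨L, hL, hv'⟩ := zz_of_chain s c hc φ hv
  obtain ⟨M, rfl, hM⟩ := bridge1 h (zz φ) L hL hv'
  exact chain_of_zz M φ hM

end Pool.Agent.Bht.BK.EQ66
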