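import Pool.Agent.Bht.BK.Sig

/-! signature for the theorem in characteristic 0 (no sorries here; statements below in comments) -/

namespace Pool.Agent.Bht.BK.EQ66

open Pool.Agent.H25

variable {K : Type*} [Field K] {α β : Type}

/-- value of a function of words on a product of labelled trees -/
def cval : List (LT α) → (List α → K) → K
  | [], φ => φ []
  | H :: Hs, φ => H.val (fun p => cval Hs (fun q => φ (p ++ q)))

/-- `s`-functional: kills every Lie monomial with at least `s` leaves, in every context -/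
def SF (s : ℕ) (φ : List α → K) : Prop :=
  ∀ C : LT α, s ≤ C.shape.lv → ∀ u v, C.val (fun w => φ (u ++ w ++ v)) = 0

/-- `φ` lives on the words using each letter of `all` exactly once -/
def ML (all : List α) (φ : List α → K) : Prop := all.Nodup ∧ ∀ w, φ w ≠ 0 → w.Perm all

/-- `φ` does not kill all products of labelled trees with the shapes `Q` -/
def Ev (Q : List BT) (φ : List α → K) : Prop :=
  ∃ Hs : List (LT α), Hs.map LT.shape = Q ∧ cval Hs φ ≠ 0

/-- the pendants of the leaves, from the leaf to the root -/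
def chains : BT → List (List BT)
  | BT.leaf => [[]]
  | BT.node a b => (chains a).map (· ++ [b]) ++ (chains b).map (· ++ [a])

/-- `φ` does not kill `R_X P` -/
def EvX (X : BT) (P : List BT) (φ : List α → K) : Prop := ∃ c ∈ chains X, Ev (c ++ P) φ

/-- `R_X P = R_X' P` in `U(L/L_(>=s))`, dual form -/
def EQh (K : Type*) [Field K] (s : ℕ) (X X' : BT) (P : List BT) : Prop :=
  ∀ (α : Type) (all : List α) (φ : List α → K), ML all φ → SF s φ → (EvX X P φ ↔ EvX X' P φ)

/-- the root lemma -/
def RLst (K : Type*) [Field K] : Prop :=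
  ∀ (s : ℕ) (X1 X2 X1' X2' : BT) (P : List BT), X1.lv + X2.lv ≤ s →
    X1.lv + X2.lv = X1'.lv + X2'.lv → X2.lv ≤ X1.lv → X2'.lv ≤ X1'.lv → (∀ h ∈ P, h.lv < s) →
    EQh K s (BT.node X1 X2) (BT.node X1' X2') P →
    X2.lv = X2'.lv ∧ (X2.lv < X1.lv → X0 K X2 = X0 K X2')

-- TARGET (EQ66): theorem iso_of_X0_of_RL (hRL : RLst K) {s t : BT} (h : X0 K s = X0 K t) : BT.Iso s t

end Pool.Agent.Bht.BK.EQ66
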